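import Pool.Agent.H7.ME.Stmts

/-!
# Board me17, row DLC: the deficits in a core
-/

set_option autoImplicit false

open Finset

namespace Pool.ME7

open Pool.Agent.H23.KT Pool.Agent.H46.KW Pool.KQ Pool.GT7 Pool.GU7 Pool.HZ7 Pool.IA7

private theorem dlc_nb_add_non {V : Type} (G : SimpleGraph V) (X : Finset V) (u : V) :
    (nb G X u).card + (non G X u).card = X.card := by
  classical
  unfold nb non
  exact Finset.card_filter_add_card_filter_not _

private theorem dlc_card_un {V : Type} [DecidableEq V] {G : SimpleGraph V} {b : ℕ}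
    {Q : Fin b → Finset V} (hQ : Par G Q) : (un Q).card = ∑ j, (Q j).card := by
  unfold un
  exact Finset.card_biUnion (fun i _ j _ hij => hQ.dis i j hij)

private theorem dlc_card_nb_un {V : Type} [DecidableEq V] {G : SimpleGraph V} {b : ℕ}
    {Q : Fin b → Finset V} (hQ : Par G Q) (u : V) :
    (nb G (un Q) u).card = ∑ k, (nb G (Q k) u).card := by
  classical
  have h : nb G (un Q) u = univ.biUnion (fun k => nb G (Q k) u) := by
    ext y
    simp only [mem_nb, un, mem_biUnion, mem_univ, true_and]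
    constructor
    · rintro ⟨⟨k, hk⟩, hadj⟩
      exact ⟨k, hk, hadj⟩
    · rintro ⟨k, hk, hadj⟩
      exact ⟨⟨k, hk⟩, hadj⟩
  rw [h]
  apply Finset.card_biUnion
  intro i _ j _ hij
  exact Finset.disjoint_of_subset_left (fun y hy => ((mem_nb G).mp hy).1)
    (Finset.disjoint_of_subset_right (fun y hy => ((mem_nb G).mp hy).1) (hQ.dis i j hij))

theorem DLC_thm : DLCStmt := by
  intro p r hpr hp3 C hC
  refine ⟨⌈((p : ℝ) + 5) * C⌉₊, ?_⟩
  intro a _ V _ _ G Q hG hB
  have hPar := hB.par
  have hK : ((p : ℝ) + 5) * C ≤ (⌈((p : ℝ) + 5) * C⌉₊ : ℝ) := Nat.le_ceil _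
  set S := un Q with hSdef
  have hrpos : 1 ≤ r := by
    have := hpr.rb
    omega
  have hcardS : S.card = ∑ j, (Q j).card := dlc_card_un hPar
  have hfull : ∀ j, (p + 3) * a + r + (Q j).card ≤ S.card := by
    intro j
    obtain ⟨v, hv, hdeg, hsub⟩ := hB.full j
    have hdisj : Disjoint (nb G univ v) (Q j) := by
      rw [Finset.disjoint_left]
      intro y hy hyQ
      exact hPar.ind j v hv y hyQ ((mem_nb G).mp hy).2
    rw [← hdeg, ← Finset.card_union_of_disjoint hdisj]
    apply Finset.card_le_card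
    apply Finset.union_subset hsub
    intro y hy
    exact Finset.mem_biUnion.mpr ⟨j, mem_univ _, hy⟩
  have hsumfull : (p + 4) * ((p + 3) * a + r) + S.card ≤ (p + 4) * S.card := by
    have h1 : ∑ j : Fin (p + 4), ((p + 3) * a + r + (Q j).card) ≤ ∑ _j : Fin (p + 4), S.card :=
      Finset.sum_le_sum (fun j _ => hfull j)
    rw [Finset.sum_add_distrib, ← hcardS, Finset.sum_const, Finset.sum_const,
      Finset.card_univ, Fintype.card_fin, smul_eq_mul, smul_eq_mul] at h1
    exact h1
  have hbig : (p + 3) * a + r + a + 1 ≤ S.card := by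
    by_contra hcon
    have hle : S.card ≤ (p + 3) * a + r + a := by omega
    have h2 : (p + 3) * S.card ≤ (p + 3) * ((p + 3) * a + r + a) := Nat.mul_le_mul_left _ hle
    nlinarith
  obtain ⟨s', hs'⟩ := Nat.exists_eq_add_of_le hbig
  obtain ⟨s, hs1, hs⟩ : ∃ s, 1 ≤ s ∧ S.card = (p + 3) * a + r + a + s :=
    ⟨1 + s', by omega, by omega⟩
  have hnj : ∀ j, (Q j).card ≤ a + s := by
    intro j
    have := hfull j
    omega
  let σ : Fin (p + 4) → ℕ := fun j => a + s - (Q j).card
  have hσ : ∀ j, (Q j).card + σ j = a + s := by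
    intro j
    have := hnj j
    change (Q j).card + (a + s - (Q j).card) = a + s
    omega
  have hsC : (s : ℝ) ≤ ((p : ℝ) + 4) * C := by
    have h1 : ((S.card : ℕ) : ℝ) ≤ ((p : ℝ) + 4) * (a + C) := by
      rw [hcardS]
      push_cast
      calc ∑ j, ((Q j).card : ℝ) ≤ ∑ _j : Fin (p + 4), ((a : ℝ) + C) :=
            Finset.sum_le_sum (fun j _ => (hB.siz j).2)
        _ = ((p : ℝ) + 4) * (a + C) := by
            rw [Finset.sum_const, Finset.card_univ, Fintype.card_fin, nsmul_eq_mul]
            push_cast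
            ring
    rw [hs] at h1
    push_cast at h1
    have hr0 : (0 : ℝ) ≤ r := Nat.cast_nonneg r
    nlinarith
  have hsum : ∑ j, σ j + r = (p + 3) * s := by
    have h1 : ∑ j, ((Q j).card + σ j) = (p + 4) * (a + s) := by
      rw [Finset.sum_congr rfl (fun j _ => hσ j), Finset.sum_const, Finset.card_univ,
        Fintype.card_fin, smul_eq_mul]
    rw [Finset.sum_add_distrib, ← hcardS, hs] at h1
    nlinarith
  have hnbS : ∀ u, (nb G S u).card ≤ (p + 3) * a + r := by
    intro u
    refine le_trans (Finset.card_le_card ?_) (hG.deg u)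
    intro y hy
    exact (mem_nb G).mpr ⟨mem_univ _, ((mem_nb G).mp hy).2⟩
  have hdl : ∀ u, (nb G S u).card + dl G p r a S u = (p + 3) * a + r := by
    intro u
    have := hnbS u
    unfold dl
    omega
  have hh : ∀ j, ∀ u ∈ Q j, ∑ k ∈ univ.erase j, (non G (Q k) u).card =
      σ j + dl G p r a S u := by
    intro j u hu
    have h0 : (nb G (Q j) u).card = 0 := by
      rw [Finset.card_eq_zero, Finset.eq_empty_iff_forall_notMem]
      intro y hy
      exact hPar.ind j u hu y ((mem_nb G).mp hy).1 ((mem_nb G).mp hy).2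
    have h1 : (nb G S u).card = ∑ k ∈ univ.erase j, (nb G (Q k) u).card := by
      rw [hSdef, dlc_card_nb_un hPar u, ← Finset.add_sum_erase _ _ (mem_univ j), h0, zero_add]
    have h2 : S.card = (Q j).card + ∑ k ∈ univ.erase j, (Q k).card := by
      rw [hcardS, ← Finset.add_sum_erase _ _ (mem_univ j)]
    have h3 : ∑ k ∈ univ.erase j, (nb G (Q k) u).card +
        ∑ k ∈ univ.erase j, (non G (Q k) u).card = ∑ k ∈ univ.erase j, (Q k).card := by
      rw [← Finset.sum_add_distrib]
      exact Finset.sum_congr rfl (fun k _ => dlc_nb_add_non G (Q k) u)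
    have h4 := hdl u
    have h5 := hσ j
    omega
  have htot : tot G Q = ∑ j, (Q j).card * σ j + ∑ u ∈ S, dl G p r a S u := by
    have h1 : ∑ u ∈ S, dl G p r a S u = ∑ j, ∑ u ∈ Q j, dl G p r a S u := by
      rw [hSdef]
      unfold un
      exact Finset.sum_biUnion (fun i _ j _ hij => hPar.dis i j hij)
    rw [h1, ← Finset.sum_add_distrib]
    unfold tot
    apply Finset.sum_congr rfl
    intro j _
    rw [Finset.sum_comm, Finset.sum_congr rfl (fun u hu => hh j u hu), Finset.sum_add_distrib,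
      Finset.sum_const, smul_eq_mul]
  have hmem : ∀ u ∈ S, ∃ j, u ∈ Q j := by
    intro u hu
    rw [hSdef] at hu
    obtain ⟨j, _, hj⟩ := Finset.mem_biUnion.mp hu
    exact ⟨j, hj⟩
  refine ⟨s, σ, hs1, ?_, ?_, hσ, hsum, hs, hh, ?_, ?_, ?_⟩
  · have : (s : ℝ) ≤ (⌈((p : ℝ) + 5) * C⌉₊ : ℝ) := by nlinarith
    exact_mod_cast this
  · intro j
    have h1 : ((Q j).card : ℝ) + (σ j : ℝ) = a + s := by exact_mod_cast hσ j
    have h2 := (hB.siz j).1
    have : (σ j : ℝ) ≤ (⌈((p : ℝ) + 5) * C⌉₊ : ℝ) := by nlinarith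
    exact_mod_cast this
  · intro u _
    have h1 : (nb G S u).card + (nb G (univ \ S) u).card ≤ (p + 3) * a + r := by
      refine le_trans ?_ (hG.deg u)
      have hdisj : Disjoint (nb G S u) (nb G (univ \ S) u) := by
        rw [Finset.disjoint_left]
        intro y hy hy2
        exact (Finset.mem_sdiff.mp ((mem_nb G).mp hy2).1).2 ((mem_nb G).mp hy).1
      rw [← Finset.card_union_of_disjoint hdisj]
      apply Finset.card_le_card
      intro y hy
      rcases Finset.mem_union.mp hy with h | h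
      · exact (mem_nb G).mpr ⟨mem_univ _, ((mem_nb G).mp h).2⟩
      · exact (mem_nb G).mpr ⟨mem_univ _, ((mem_nb G).mp h).2⟩
    have h2 := hdl u
    omega
  · intro u hu
    obtain ⟨j, hj⟩ := hmem u hu
    have h1 : ((∑ k ∈ univ.erase j, (non G (Q k) u).card : ℕ) : ℝ) ≤
        ((p : ℝ) + 3) * (((p : ℝ) + 5) * e1 p * a) := by
      push_cast
      calc ∑ k ∈ univ.erase j, ((non G (Q k) u).card : ℝ) ≤
          ∑ _k ∈ univ.erase j, (((p : ℝ) + 5) * e1 p * a) :=
            Finset.sum_le_sum (fun k hk => hB.mis j u hj k (Finset.ne_of_mem_erase hk))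
        _ = ((p : ℝ) + 3) * (((p : ℝ) + 5) * e1 p * a) := by
            rw [Finset.sum_const, Finset.card_erase_of_mem (mem_univ j), Finset.card_univ,
              Fintype.card_fin, nsmul_eq_mul]
            push_cast
            ring
    rw [hh j u hj] at h1
    push_cast at h1
    have h2 : (0 : ℝ) ≤ σ j := Nat.cast_nonneg _
    have hp3' : (2 : ℝ) ≤ p := by exact_mod_cast hp3
    have ha0 : (0 : ℝ) ≤ a := Nat.cast_nonneg a
    have h5 : ((p : ℝ) + 3) * (((p : ℝ) + 5) * e1 p * a) ≤ a / (11 * ((p : ℝ) + 3)) := by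
      have h6 : a / (11 * ((p : ℝ) + 3)) - ((p : ℝ) + 3) * (((p : ℝ) + 5) * e1 p * a) =
          (5 * (p : ℝ) - 7) * a / (176 * ((p : ℝ) + 3) ^ 2) := by
        unfold e1
        field_simp
        ring
      have h7 : 0 ≤ (5 * (p : ℝ) - 7) * a / (176 * ((p : ℝ) + 3) ^ 2) := by
        apply div_nonneg _ (by positivity)
        apply mul_nonneg _ ha0
        linarith
      linarith
    linarith
  · have h1 : ∑ u ∈ S, dl G p r a S u ≤ tot G Q := by omega
    have h2 : ((∑ u ∈ S, dl G p r a S u : ℕ) : ℝ) ≤ (tot G Q : ℝ) := by exact_mod_cast h1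
    exact h2.trans hB.tot

end Pool.ME7
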